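import Pool.Agent.H17.WH.Main
import Pool.Agent.H17.WH.Embed
import Pool.Agent.H17.WH.Pow

/-!
# MP_c645a0: weakly homeomorphic Banach spaces embed into finite powers of each other

Let `X` and `Y` be real Banach spaces, and let `H : (Y, w) → (X, w)` and `h : (X, w) → (Y, w)` be
continuous maps with `h ∘ H = id` (for example, a weak homeomorphism and its inverse). Then `Y` is
isomorphic to a subspace of a finite power of `X`. Hence, if `X` has an equivalent locally uniformly
rotund norm, so has `Y`.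
-/

set_option autoImplicit false
open Filter Topology
open Pool.Agent.H14WH Pool.Agent.H17.WH

namespace Pool.Agent.Results.MP_c645a0_an.WeakRetract

theorem result :
    ∀ (X Y : Type*) [NormedAddCommGroup X] [NormedSpace ℝ X] [CompleteSpace X]
      [NormedAddCommGroup Y] [NormedSpace ℝ Y] [CompleteSpace Y],
      (∃ (H : WeakSpace ℝ Y → WeakSpace ℝ X) (h : WeakSpace ℝ X → WeakSpace ℝ Y),
        Continuous H ∧ Continuous h ∧ ∀ y, h (H y) = y) →
      (∃ (n : ℕ) (J : Y →L[ℝ] (Fin n → X)) (c : ℝ), 0 < c ∧ ∀ y, c * ‖y‖ ≤ ‖J y‖) ∧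
      (LURRenormable X → LURRenormable Y) := by
  intro X Y _ _ _ _ _ _ ⟨H, h, hH, hh, hinv⟩
  have hemb : ∃ (n : ℕ) (J : Y →L[ℝ] (Fin n → X)) (c : ℝ), 0 < c ∧
      ∀ y, c * ‖y‖ ≤ ‖J y‖ := by
    rcases subsingleton_or_nontrivial X with hX | hX
    · have hY : ∀ y : Y, y = 0 := by
        intro y
        have hS : ∀ a b : WeakSpace ℝ X, a = b := fun a b => hX.elim a b
        have h1 := hinv (toWeakSpace ℝ Y y)
        have h2 := hinv (toWeakSpace ℝ Y 0)
        rw [hS (H (toWeakSpace ℝ Y y)) (H (toWeakSpace ℝ Y 0)), h2] at h1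
        exact ((toWeakSpace ℝ Y).injective h1).symm
      refine ⟨0, 0, 1, one_pos, ?_⟩
      intro y
      rw [hY y]
      simp
    · obtain ⟨k, B, N, C, hN⟩ := embed_of_retract H h hH hh hinv
      exact exists_embedding N C hN
  refine ⟨hemb, ?_⟩
  intro hX
  obtain ⟨n, J, c, hc, hJ⟩ := hemb
  exact Pool.Agent.H17.HS.lurRenormable_of_embedding (lur_pow hX n) J hc hJ

end Pool.Agent.Results.MP_c645a0_an.WeakRetract
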